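import Mathlib

set_option autoImplicit false

namespace Pool.Agent.Results.MP_543b9c_al.NoBound

/-- A loop structure `(Q, ·, \, /, 1)`. -/
structure LoopStr (Q : Type) where
  mul : Q → Q → Q
  ldiv : Q → Q → Q
  rdiv : Q → Q → Q
  one : Q
  one_mul : ∀ a, mul one a = a
  mul_one : ∀ a, mul a one = a
  ldiv_spec : ∀ a b x, mul a x = b ↔ x = ldiv a b
  rdiv_spec : ∀ a b x, mul x a = b ↔ x = rdiv b a

/-- Polynomial operations (term operations with constants) in variables indexed by `ι`. -/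
inductive IsPoly {Q : Type} (L : LoopStr Q) {ι : Type} : ((ι → Q) → Q) → Prop
  | var (i : ι) : IsPoly L (fun x => x i)
  | const (c : Q) : IsPoly L (fun _ => c)
  | mul (p q : (ι → Q) → Q) : IsPoly L p → IsPoly L q → IsPoly L (fun x => L.mul (p x) (q x))
  | ldiv (p q : (ι → Q) → Q) : IsPoly L p → IsPoly L q → IsPoly L (fun x => L.ldiv (p x) (q x))
  | rdiv (p q : (ι → Q) → Q) : IsPoly L p → IsPoly L q → IsPoly L (fun x => L.rdiv (p x) (q x))

/-- `k`-supernilpotence (the term condition with tuples). -/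
def Supernil {Q : Type} (L : LoopStr Q) (k : ℕ) : Prop :=
  ∀ (m : Fin k → ℕ) (l : ℕ) (p : (((i : Fin k) × Fin (m i)) ⊕ Fin l → Q) → Q), IsPoly L p →
    ∀ (a b : (i : Fin k) → Fin (m i) → Q) (u v : Fin l → Q), (∀ i, a i ≠ b i) →
      (∀ x : (i : Fin k) → Fin (m i) → Q, (∀ i, x i = a i ∨ x i = b i) → x ≠ b →
        p (Sum.elim (fun j => x j.1 j.2) u) = p (Sum.elim (fun j => x j.1 j.2) v)) →
      p (Sum.elim (fun j => b j.1 j.2) u) = p (Sum.elim (fun j => b j.1 j.2) v)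

/-- The multiplication group. -/
def Mlt {Q : Type} (L : LoopStr Q) : Subgroup (Equiv.Perm Q) :=
  Subgroup.closure {σ | ∃ a, (∀ x, σ x = L.mul a x) ∨ (∀ x, σ x = L.mul x a)}

/-- Normal subloops. -/
def IsNormalSubloop {Q : Type} (L : LoopStr Q) (N : Set Q) : Prop :=
  L.one ∈ N ∧ (∀ x ∈ N, ∀ y ∈ N, L.mul x y ∈ N ∧ L.ldiv x y ∈ N ∧ L.rdiv x y ∈ N) ∧
    ∀ σ ∈ Mlt L, σ L.one = L.one → ∀ x ∈ N, σ x ∈ N

/-- The coset `aN` lies in the center of `Q/N`. -/
def CentralMod {Q : Type} (L : LoopStr Q) (N : Set Q) (a : Q) : Prop :=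
  ∀ x y : Q,
    L.mul (L.mul a x) '' N = L.mul (L.mul x a) '' N ∧
    L.mul (L.mul a (L.mul x y)) '' N = L.mul (L.mul (L.mul a x) y) '' N ∧
    L.mul (L.mul x (L.mul a y)) '' N = L.mul (L.mul (L.mul x a) y) '' N ∧
    L.mul (L.mul x (L.mul y a)) '' N = L.mul (L.mul (L.mul x y) a) '' N

/-- There is a central series of length `n`. -/
def HasCentralSeries {Q : Type} (L : LoopStr Q) (n : ℕ) : Prop :=
  ∃ N : Fin (n + 1) → Set Q, (∀ i, IsNormalSubloop L (N i)) ∧ N 0 = {L.one} ∧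
    N (Fin.last n) = Set.univ ∧
    ∀ i : Fin n, N i.castSucc ⊆ N i.succ ∧ ∀ a ∈ N i.succ, CentralMod L (N i.castSucc) a

abbrev QQ (d : ℕ) : Type := (Fin (d + 2) → ZMod 2) × ZMod 2

def th {d : ℕ} {R : Type} [CommRing R] (a b : Fin (d + 2) → R) : R := (∏ j, a j) * b 0

lemma th_zero_left {d : ℕ} (b : Fin (d + 2) → ZMod 2) : th 0 b = 0 := by simp [th]
lemma th_zero_right {d : ℕ} (b : Fin (d + 2) → ZMod 2) : th b 0 = 0 := by simp [th]

def LL (d : ℕ) : LoopStr (QQ d) where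
  mul x y := (x.1 + y.1, x.2 + y.2 + th x.1 y.1)
  ldiv x y := (y.1 - x.1, y.2 - x.2 - th x.1 (y.1 - x.1))
  rdiv y x := (y.1 - x.1, y.2 - x.2 - th (y.1 - x.1) x.1)
  one := (0, 0)
  one_mul a := by simp [th_zero_left]
  mul_one a := by simp [th_zero_right]
  ldiv_spec a b x := by
    constructor
    · rintro rfl; ext <;> simp; ring
    · rintro rfl; ext <;> simp; ring
  rdiv_spec a b x := by
    constructor
    · rintro rfl; ext <;> simp; ring
    · rintro rfl; ext <;> simp; ring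

open MvPolynomial in
lemma deg {d : ℕ} {ι σ : Type} (φ : ι → Fin (d + 2) → MvPolynomial σ (ZMod 2))
    (ψ : ι → MvPolynomial σ (ZMod 2)) (h1 : ∀ i j, (φ i j).totalDegree ≤ 1)
    (h2 : ∀ i, (ψ i).totalDegree ≤ d + 3) (p : (ι → QQ d) → QQ d) (hp : IsPoly (LL d) p) :
    ∃ (P : Fin (d + 2) → MvPolynomial σ (ZMod 2)) (R : MvPolynomial σ (ZMod 2)),
      (∀ j, (P j).totalDegree ≤ 1) ∧ R.totalDegree ≤ d + 3 ∧
      ∀ s, p (fun i => (fun j => eval s (φ i j), eval s (ψ i))) = (fun j => eval s (P j), eval s R) := by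
  have hth : ∀ P P' : Fin (d + 2) → MvPolynomial σ (ZMod 2), (∀ j, (P j).totalDegree ≤ 1) →
      (∀ j, (P' j).totalDegree ≤ 1) → (th P P').totalDegree ≤ d + 3 := by
    intro P P' h h'
    refine (totalDegree_mul _ _).trans ?_
    have h3 : (∏ j, P j).totalDegree ≤ d + 2 := by
      simpa using (totalDegree_finsetProd Finset.univ P).trans (Finset.sum_le_sum fun j _ => h j)
    have := h' 0
    omega
  have hsub : ∀ (A B : MvPolynomial σ (ZMod 2)) (n : ℕ), A.totalDegree ≤ n → B.totalDegree ≤ n →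
      (A - B).totalDegree ≤ n := fun A B n h h' => (totalDegree_sub A B).trans (max_le h h')
  have hadd : ∀ (A B : MvPolynomial σ (ZMod 2)) (n : ℕ), A.totalDegree ≤ n → B.totalDegree ≤ n →
      (A + B).totalDegree ≤ n := fun A B n h h' => (totalDegree_add A B).trans (max_le h h')
  induction hp with
  | var i => exact ⟨φ i, ψ i, h1 i, h2 i, fun s => rfl⟩
  | const c => exact ⟨fun j => C (c.1 j), C c.2, by simp, by simp, fun s => by simp⟩
  | mul p q _ _ ihp ihq =>
    obtain ⟨P, R, a1, a2, a3⟩ := ihp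
    obtain ⟨P', R', b1, b2, b3⟩ := ihq
    refine ⟨P + P', R + R' + th P P', fun j => hadd _ _ _ (a1 j) (b1 j),
      hadd _ _ _ (hadd _ _ _ a2 b2) (hth _ _ a1 b1), fun s => ?_⟩
    beta_reduce
    rw [a3, b3]
    ext <;> simp [LL, th]
  | ldiv p q _ _ ihp ihq =>
    obtain ⟨P, R, a1, a2, a3⟩ := ihp
    obtain ⟨P', R', b1, b2, b3⟩ := ihq
    refine ⟨P' - P, R' - R - th P (P' - P), fun j => hsub _ _ _ (b1 j) (a1 j),
      hsub _ _ _ (hsub _ _ _ b2 a2) (hth _ _ a1 fun j => hsub _ _ _ (b1 j) (a1 j)), fun s => ?_⟩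
    beta_reduce
    rw [a3, b3]
    ext <;> simp [LL, th]
  | rdiv p q _ _ ihp ihq =>
    obtain ⟨P, R, a1, a2, a3⟩ := ihp
    obtain ⟨P', R', b1, b2, b3⟩ := ihq
    refine ⟨P - P', R - R' - th (P - P') P', fun j => hsub _ _ _ (a1 j) (b1 j),
      hsub _ _ _ (hsub _ _ _ a2 b2) (hth _ _ (fun j => hsub _ _ _ (a1 j) (b1 j)) b1), fun s => ?_⟩
    beta_reduce
    rw [a3, b3]
    ext <;> simp [LL, th]

open MvPolynomial in
lemma sn (d : ℕ) : Supernil (LL d) (d + 3) := by
  classical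
  intro m l p hp a b u v hab h
  obtain ⟨A, hA⟩ : ∃ A : ((i : Fin (d + 3)) × Fin (m i)) ⊕ Fin l → QQ d,
    A = Sum.elim (fun j => a j.1 j.2) u := ⟨_, rfl⟩
  obtain ⟨B, hB⟩ : ∃ B : ((i : Fin (d + 3)) × Fin (m i)) ⊕ Fin l → QQ d,
    B = Sum.elim (fun j => b j.1 j.2) v := ⟨_, rfl⟩
  obtain ⟨blk, hblk⟩ : ∃ blk : ((i : Fin (d + 3)) × Fin (m i)) ⊕ Fin l → Option (Fin (d + 3)),
    blk = Sum.elim (fun j => some j.1) (fun _ => none) := ⟨_, rfl⟩
  have hd : ∀ (c e : ZMod 2) (t : Option (Fin (d + 3))),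
      (C c + C e * X t : MvPolynomial (Option (Fin (d + 3))) (ZMod 2)).totalDegree ≤ 1 := by
    intro c e t
    refine (totalDegree_add _ _).trans (max_le (by simp) ((totalDegree_mul _ _).trans ?_))
    simp
  obtain ⟨P, R, h1, h2, h3⟩ := deg (σ := Option (Fin (d + 3)))
    (fun i j => C ((A i).1 j) + C ((B i).1 j - (A i).1 j) * X (blk i))
    (fun i => C ((A i).2) + C ((B i).2 - (A i).2) * X (blk i)) (fun i j => hd _ _ _)
    (fun i => (hd _ _ _).trans (by omega)) p hp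
  have h4 : ∑ s : Option (Fin (d + 3)) → ZMod 2,
      ((fun j => eval s (P j), eval s R) : QQ d) = 0 := by
    ext j
    · simp only [Prod.fst_sum, Finset.sum_apply]
      exact MvPolynomial.sum_eval_eq_zero _ (by have := h1 j; simp; omega)
    · simp only [Prod.snd_sum]
      exact MvPolynomial.sum_eval_eq_zero _ (by simp; omega)
  have h01 : ∀ z : ZMod 2, z = 0 ∨ z = 1 := by decide
  obtain ⟨xx, hxx⟩ : ∃ xx : (Fin (d + 3) → ZMod 2) → (i : Fin (d + 3)) → Fin (m i) → QQ d,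
    xx = fun t i => if t i = 0 then a i else b i := ⟨_, rfl⟩
  have h5 : ∀ (z : ZMod 2) (t : Fin (d + 3) → ZMod 2),
      ((fun j => eval (Equiv.piOptionEquivProd.symm (z, t)) (P j),
        eval (Equiv.piOptionEquivProd.symm (z, t)) R) : QQ d) =
      p (Sum.elim (fun j => xx t j.1 j.2) (if z = 0 then u else v)) := by
    intro z t
    rw [← h3]
    congr 1
    funext i
    subst hA hB hblk hxx
    rcases i with ⟨i, j⟩ | i
    · rcases h01 (t i) with h | h <;> ext <;> simp [h]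
    · rcases h01 z with h | h <;> ext <;> simp [h]
  rw [← (Equiv.piOptionEquivProd (β := fun _ => ZMod 2)).symm.sum_comp, Fintype.sum_prod_type_right]
    at h4
  simp only [h5] at h4
  have h6 : ∀ f : ZMod 2 → QQ d, ∑ z, f z = f 0 + f 1 := fun f => Fin.sum_univ_two f
  have h7 : ∀ z : QQ d, z + z = 0 := by
    intro z; ext <;> simp [CharTwo.add_self_eq_zero]
  simp only [h6, if_true, one_ne_zero, if_false] at h4
  rw [Finset.sum_eq_single 1] at h4
  · have : xx 1 = b := by subst hxx; funext i; simp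
    rw [this] at h4
    exact add_right_cancel (h4.trans (h7 _).symm)
  · intro t _ ht
    rw [h (xx t) (fun i => by subst hxx; by_cases h : t i = 0 <;> simp [h]) ?_, h7]
    intro h8
    apply ht
    funext i
    rcases h01 (t i) with h9 | h9
    · have := congrFun h8 i
      subst hxx
      simp only [h9, if_true] at this
      exact absurd this (hab i)
    · exact h9
  · simp

lemma ex_sum {d : ℕ} {ι κ : Type} (e : κ → ι) (c : QQ d) (S : Finset κ) :
    ∃ p : (ι → QQ d) → QQ d, IsPoly (LL d) p ∧ (∀ x, (p x).1 = c.1 + ∑ i ∈ S, (x (e i)).1) ∧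
      ∀ x y, (∀ i, x (e i) = y (e i)) → p x = p y := by
  classical
  induction S using Finset.induction_on with
  | empty => exact ⟨_, .const c, by simp, by simp⟩
  | insert i S hi ih =>
    obtain ⟨p, hp, h, h'⟩ := ih
    refine ⟨_, .mul _ _ hp (.var (e i)), fun x => ?_, fun x y hxy => ?_⟩
    · simp only [LL, h, Finset.sum_insert hi]
      abel
    · rw [h' x y hxy, hxy]

lemma not_sn (d j : ℕ) (hj : j ≤ d + 2) : ¬ Supernil (LL d) j := by
  classical
  intro h
  obtain ⟨p, hp, h1, h1'⟩ := ex_sum (d := d) (ι := ((_ : Fin j) × Fin 1) ⊕ Fin 1) (κ := Fin j)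
    (fun i => Sum.inl ⟨i, 0⟩) (fun t => if t.val < j then 0 else 1, 0) Finset.univ
  have h2 := h (fun _ => 1) 1 _
    (.ldiv _ _ (.var (Sum.inr 0)) (.mul _ _ hp (.var (Sum.inr 0))))
    (fun _ _ => (0, 0)) (fun i _ => (Pi.single (i.castLE hj) 1, 0)) (fun _ => (0, 0))
    (fun _ => (Pi.single 0 1, 0)) (fun i h => by
      have := congrFun (congrArg Prod.fst (congrFun h 0)) (i.castLE hj)
      simp at this)
  have h3 : ∀ z : QQ d, (LL d).ldiv (0, 0) ((LL d).mul z (0, 0)) = z := by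
    intro z; ext <;> simp [LL, th_zero_left, th_zero_right]
  have h4 : ∀ z : QQ d, (LL d).ldiv (Pi.single 0 1, 0) ((LL d).mul z (Pi.single 0 1, 0)) =
      (z.1, z.2 + ∏ t, z.1 t) := by
    intro z
    have : ∏ t : Fin (d + 2), (Pi.single 0 1 : Fin (d + 2) → ZMod 2) t = 0 :=
      Finset.prod_eq_zero (Finset.mem_univ 1) (by simp)
    ext <;> simp [LL, th, this]
  simp only [Sum.elim_inr, h3, h4] at h2
  have h5 : ∀ x : Fin j → Fin 1 → QQ d, ∀ u v : Fin 1 → QQ d,
      p (Sum.elim (fun j => x j.1 j.2) u) = p (Sum.elim (fun j => x j.1 j.2) v) :=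
    fun x u v => h1' _ _ fun i => rfl
  have h6 := h2 (fun x hx hne => by
    obtain ⟨i, hi⟩ := Function.ne_iff.mp hne
    have h7 := (hx i).resolve_right hi
    rw [h5 x (fun _ => (Pi.single 0 1, 0)) (fun _ => (0, 0)),
      Finset.prod_eq_zero (Finset.mem_univ (i.castLE hj)), add_zero]
    rw [h1]
    simp only [Pi.add_apply, Fin.val_castLE, i.2, if_true, zero_add, Finset.sum_apply, Sum.elim_inl]
    refine Finset.sum_eq_zero fun i' _ => ?_
    rcases hx i' with h8 | h8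
    · simp [h8]
    · have : i ≠ i' := by rintro rfl; exact hi h8
      simp [h8, this])
  rw [h5 (fun i _ => (Pi.single (i.castLE hj) 1, 0)) (fun _ => (Pi.single 0 1, 0))
    (fun _ => (0, 0))] at h6
  have h7 := congrArg Prod.snd h6
  rw [Finset.prod_eq_one] at h7
  · simp at h7
  · intro t _
    rw [h1]
    simp only [Pi.add_apply, Finset.sum_apply, Sum.elim_inl]
    by_cases ht : t.val < j
    · rw [Finset.sum_eq_single ⟨t.val, ht⟩]
      · simp [ht]
      · intro i _ hi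
        rw [Pi.single_eq_of_ne]
        rintro rfl
        exact hi rfl
      · simp
    · rw [Finset.sum_eq_zero]
      · simp [ht]
      · intro i _
        rw [Pi.single_eq_of_ne]
        rintro rfl
        exact ht i.2

lemma mlt {d : ℕ} (σ : Equiv.Perm (QQ d)) (h : σ ∈ Mlt (LL d)) : ∃ c, ∀ x, (σ x).1 = x.1 + c := by
  induction h using Subgroup.closure_induction with
  | mem σ h =>
    obtain ⟨a, h | h⟩ := h
    · exact ⟨a.1, fun x => by rw [h]; exact add_comm _ _⟩
    · exact ⟨a.1, fun x => by rw [h]; rfl⟩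
  | one => exact ⟨0, by simp⟩
  | mul σ τ _ _ h1 h2 =>
    obtain ⟨c, hc⟩ := h1
    obtain ⟨e, he⟩ := h2
    exact ⟨e + c, fun x => by rw [Equiv.Perm.mul_apply, hc, he, add_assoc]⟩
  | inv σ _ h1 =>
    obtain ⟨c, hc⟩ := h1
    exact ⟨-c, fun x => by have := hc (σ⁻¹ x); simp at this; simp [this]⟩

lemma coset {d : ℕ} (x y : QQ d) (h : x.1 = y.1) :
    (LL d).mul x '' {z | z.1 = 0} = (LL d).mul y '' {z | z.1 = 0} := by
  have : ∀ x : QQ d, (LL d).mul x '' {z | z.1 = 0} = {z | z.1 = x.1} := by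
    intro x
    ext z
    constructor
    · rintro ⟨w, hw, rfl⟩
      simpa [LL] using hw
    · intro hz
      have hz : z.1 = x.1 := hz
      exact ⟨(0, z.2 - x.2), rfl, by ext <;> simp [LL, th_zero_right, hz]⟩
  rw [this, this, h]

lemma cn2 (d : ℕ) : HasCentralSeries (LL d) 2 := by
  refine ⟨![{(0, 0)}, {z | z.1 = 0}, Set.univ], ?_, rfl, rfl, ?_⟩
  · intro i
    fin_cases i
    · refine ⟨rfl, ?_, ?_⟩
      · rintro x rfl y rfl
        simp [LL, th_zero_left]
      · rintro σ _ h x rfl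
        exact h
    · refine ⟨rfl, ?_, ?_⟩
      · intro x hx y hy
        have hx : x.1 = 0 := hx
        have hy : y.1 = 0 := hy
        simp [LL, hx, hy]
      · intro σ hσ h x hx
        obtain ⟨c, hc⟩ := mlt σ hσ
        have hx : x.1 = 0 := hx
        have h1 := hc (LL d).one
        rw [h] at h1
        have h2 : c = 0 := by simpa using h1
        show (σ x).1 = 0
        rw [hc, hx, h2, add_zero]
    · exact ⟨trivial, fun _ _ _ _ => ⟨trivial, trivial, trivial⟩, fun _ _ _ _ _ => trivial⟩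
  · intro i
    fin_cases i
    · refine ⟨by rintro x rfl; rfl, fun a ha x y => ?_⟩
      have ha : a.1 = 0 := ha
      refine ⟨?_, ?_, ?_, ?_⟩ <;> congr 2 <;> ext <;>
        simp [LL, ha, th_zero_left, th_zero_right] <;> ring
    · refine ⟨fun _ _ => trivial, fun a _ x y => ⟨coset _ _ ?_, coset _ _ ?_, coset _ _ ?_,
        coset _ _ ?_⟩⟩ <;> simp only [LL] <;> abel

lemma cn_ge (d n : ℕ) (h : HasCentralSeries (LL d) n) : 2 ≤ n := by
  obtain ⟨N, -, h0, h1, h2⟩ := h
  match n with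
  | 0 =>
    have : ((0, 1) : QQ d) ∈ N 0 := by
      rw [show (0 : Fin (0 + 1)) = Fin.last 0 from rfl, h1]; trivial
    rw [h0] at this
    have := congrArg Prod.snd this
    simp [LL] at this
  | 1 =>
    have h3 := ((h2 0).2 (1, 0) (by
      rw [show (0 : Fin 1).succ = Fin.last 1 from rfl, h1]; trivial) (Pi.single 0 1, 0) (0, 0)).1
    rw [show (0 : Fin 1).castSucc = 0 from rfl, h0, Set.image_singleton, Set.image_singleton,
      (LL d).mul_one, (LL d).mul_one] at h3
    have h4 := congrArg Prod.snd (Set.singleton_injective h3)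
    have : ∏ t : Fin (d + 2), (Pi.single 0 1 : Fin (d + 2) → ZMod 2) t = 0 :=
      Finset.prod_eq_zero (Finset.mem_univ 1) (by simp)
    simp [LL, th, this] at h4
  | n + 2 => omega

theorem result (k : ℕ) (hk : 3 ≤ k) : ∃ (Q : Type) (_ : Finite Q) (L : LoopStr Q),
    IsLeast {n | HasCentralSeries L n} 2 ∧ IsLeast {j | 1 ≤ j ∧ Supernil L j} k := by
  obtain ⟨k, rfl⟩ : ∃ d, k = d + 3 := ⟨k - 3, by omega⟩
  refine ⟨QQ k, inferInstance, LL k, ⟨cn2 k, fun n hn => cn_ge k n hn⟩,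
    ⟨by omega, sn k⟩, fun j hj => ?_⟩
  by_contra h
  exact not_sn k j (by omega) hj.2

end Pool.Agent.Results.MP_543b9c_al.NoBound
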